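import Pool.Agent.H46.CH.AS

/-!
# Row ECn: the theorem for the parameters, with recolouring
-/

set_option autoImplicit false

namespace Pool.Agent.H43.CHE

open Classical Pool.Agent.H8.VR Pool.Agent.H69.VR Pool.Agent.H46.CH

theorem pf_ECn (hBS : T_BS) (hEU : T_EU) (hWQ : T_WQ) (hEA : T_EAn) (hEB : T_EBn)
    (hPT : T_PTn) : Pool.Agent.H46.CH.T_ECn := by
  intro N Q L T O C _ _ _ _ _ _ _ V hSml s₀ Ac hAc
  set S : Set (Rt N Q L T O C) := {R | V.Ok R ∧ R.dt.s = s₀ ∧ (∀ φ, R.dt.F φ = 0) ∧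
    ∀ σ, R.dt.c σ ≠ 0 → Ac σ} with hS
  obtain ⟨B, hB1, hB2⟩ := hBS _ V.W.Ext (hWQ N Q L T O C V.W) S
  set g : Rt N Q L T O C → Prop := fun t =>
    ∃ R, R ∈ S ∧ V.W.Ext t R ∧ tot t.dt.c < tot R.dt.c with hg
  set ext : Rt N Q L T O C → Rt N Q L T O C := fun t => if h : g t then h.choose else t with hext
  have hextS : ∀ t, g t → ext t ∈ S ∧ V.W.Ext t (ext t) ∧ tot t.dt.c < tot (ext t).dt.c := by
    intro t h
    simp only [hext, dif_pos h]
    exact h.choose_spec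
  set δ : Rt N Q L T O C → ℕ := fun t =>
    if g t then tot (ext t).dt.c - tot t.dt.c else 1 with hδ
  have hδpos : ∀ t, 0 < δ t := by
    intro t
    simp only [hδ]
    split_ifs with h
    · have := (hextS t h).2.2
      omega
    · exact one_pos
  set p : ℕ := ∏ t ∈ B, δ t with hp
  have hppos : 0 < p := Finset.prod_pos fun t _ => hδpos t
  refine hEU (V.Lm s₀ Ac) (1 + ∑ t ∈ B, tot t.dt.c) p hppos ?_
  intro n hn hnL
  obtain ⟨R, hR1, hR2, hR3, hR4, hR5⟩ := hEA N Q L T O C V hSml s₀ Ac hAc n hnL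
  have hRS : R ∈ S := ⟨hR1, hR2, hR3, hR5⟩
  obtain ⟨t, htB, htR⟩ := hB2 R hRS
  have htS : t ∈ S := hB1 t htB
  have hle : tot t.dt.c ≤ ∑ t ∈ B, tot t.dt.c :=
    Finset.single_le_sum (f := fun t : Rt N Q L T O C => tot t.dt.c) (fun _ _ => Nat.zero_le _) htB
  have hlt : tot t.dt.c < tot R.dt.c := by omega
  have hgt : g t := ⟨R, hRS, htR, hlt⟩
  obtain ⟨hE1, hE2, hE3⟩ := hextS t hgt
  have hδt : δ t = tot (ext t).dt.c - tot t.dt.c := by
    simp only [hδ, if_pos hgt]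
  obtain ⟨k, hk⟩ : δ t ∣ p := Finset.dvd_prod_of_mem δ htB
  set f : Fin (k + 1) → Rt N Q L T O C := fun i => if i = 0 then R else ext t with hf
  have hfS : ∀ i, f i ∈ S ∧ V.W.Ext t (f i) := by
    intro i
    simp only [hf]
    split_ifs
    · exact ⟨hRS, htR⟩
    · exact ⟨hE1, hE2⟩
  have hRD := hPT N Q L T O C V hSml t htS.1 (k + 1) f (fun i => ⟨(hfS i).1.1, (hfS i).2⟩)
  rw [htS.2.1] at hRD
  have hmem := hEB N Q L T O C V s₀ Ac hAc _ hRD (by
    intro σ hσ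
    by_cases h0 : t.dt.c σ = 0
    · have h1 : ∑ i, ((f i).dt.c σ - t.dt.c σ) ≠ 0 := by
        intro h2
        apply hσ
        rw [h2, h0]
      obtain ⟨i, -, hi⟩ := Finset.exists_ne_zero_of_sum_ne_zero h1
      exact (hfS i).1.2.2.2 σ (by omega)
    · exact htS.2.2.2 σ h0)
  have hlec : ∀ R', V.W.Ext t R' → ∀ σ, t.dt.c σ ≤ R'.dt.c σ := by
    intro R' hR' σ
    rcases hR'.1.2.2 σ with h | h
    · exact h.le
    · exact h.2.1
  have hdiff : ∀ R', V.W.Ext t R' → ∑ σ, (R'.dt.c σ - t.dt.c σ) = tot R'.dt.c - tot t.dt.c := by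
    intro R' hR'
    have h1 : ∑ σ, R'.dt.c σ = ∑ σ, (R'.dt.c σ - t.dt.c σ) + ∑ σ, t.dt.c σ := by
      rw [← Finset.sum_add_distrib]
      refine Finset.sum_congr rfl fun σ _ => ?_
      have := hlec R' hR' σ
      omega
    unfold tot
    omega
  have htot : tot (fun σ => t.dt.c σ + ∑ i, ((f i).dt.c σ - t.dt.c σ)) = n + p := by
    have h1 : tot (fun σ => t.dt.c σ + ∑ i, ((f i).dt.c σ - t.dt.c σ)) =
        tot t.dt.c + ∑ i, (tot (f i).dt.c - tot t.dt.c) := by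
      have h2 : tot (fun σ => t.dt.c σ + ∑ i, ((f i).dt.c σ - t.dt.c σ)) =
          ∑ σ, t.dt.c σ + ∑ σ, ∑ i, ((f i).dt.c σ - t.dt.c σ) := by
        unfold tot
        exact Finset.sum_add_distrib
      rw [h2, Finset.sum_comm]
      refine congrArg (fun x => tot t.dt.c + x) ?_
      exact Finset.sum_congr rfl fun i _ => hdiff (f i) (hfS i).2
    rw [h1, Fin.sum_univ_succ]
    have h3 : f 0 = R := by simp [hf]
    have h4 : ∀ i : Fin k, f i.succ = ext t := by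
      intro i
      simp [hf]
    rw [h3]
    simp only [h4]
    rw [Finset.sum_const, Finset.card_univ, Fintype.card_fin, smul_eq_mul, ← hδt, hk, hR4]
    have : tot t.dt.c + (n - tot t.dt.c + k * δ t) = n + δ t * k := by
      have h5 : tot t.dt.c ≤ n := by omega
      rw [mul_comm k]
      omega
    exact this
  rw [htot] at hmem
  exact hmem

end Pool.Agent.H43.CHE
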