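import Pool.Agent.H46.CH.AS
import Pool.Agent.H8.CH.XT0

/-!
# Row RGn: the theorem for grammars, with recolouring
-/

set_option autoImplicit false

namespace Pool.Agent.H43.CHE

open Classical Pool.Agent.H8.VR Pool.Agent.H69.VR Pool.Agent.H46.CH

section
variable {N Q L T O : Type} [Fintype Q]

theorem fs_le {A : Type} [Fintype A] {P : A → Prop} {f g : A → ℕ} (h : ∀ a, P a → f a ≤ g a) :
    fs P f ≤ fs P g := by
  unfold fs
  exact Finset.sum_le_sum fun a ha => h a (Finset.mem_filter.1 ha).2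

/-- one argument of a union -/
theorem bnd_arg (rg : Q → Prop) (f : Q → Q) (hf : ∀ q, rg q → f q = q) (B : Q → ℕ)
    {A : Type} [Fintype A] (X : Set A) (c c₁ : A → Q) (hc : ∀ a ∈ X, c a = f (c₁ a))
    (ih : ∀ q, ¬ rg q → (num fun a => a ∈ X ∧ c₁ a = q) ≤ B q) (q : Q) (hq : ¬ rg q) :
    (num fun a => a ∈ X ∧ c a = q) ≤ fs (fun q' => ¬ rg q' ∧ f q' = q) B := by
  have e : (num fun a => a ∈ X ∧ c a = q) =
      num fun a => a ∈ X ∧ (¬ rg (c₁ a) ∧ f (c₁ a) = q) := by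
    refine num_congr fun a => and_congr_right fun ha => ?_
    rw [hc a ha]
    refine ⟨fun h => ⟨fun h' => hq ?_, h⟩, fun h => h.2⟩
    rw [← h, hf _ h']
    exact h'
  rw [e, num_fib (fun a => a ∈ X) c₁ (fun q' => ¬ rg q' ∧ f q' = q)]
  exact fs_le fun q' hq' => ih q' hq'.1

theorem bnd (S : Sg N Q L T O) (rg : Q → Prop) (B : N → Q → ℕ)
    (hpt : ∀ s q l, S.pt s q l → ¬ rg q → 1 ≤ B s q)
    (hfg : ∀ o q, rg q → S.f o q = q ∧ S.g o q = q)
    (hop : ∀ o q, ¬ rg q → fs (fun q' => ¬ rg q' ∧ S.f o q' = q) (B (S.s o)) +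
      fs (fun q' => ¬ rg q' ∧ S.g o q' = q) (B (S.t o)) ≤ B (S.u o) q)
    {A : Type} [Fintype A] {lam : A → L} {th : A → A → T} {s : N} {X : Set A} {c : A → Q}
    (h : S.Gen lam th s X c) : ∀ q, ¬ rg q → (num fun a => a ∈ X ∧ c a = q) ≤ B s q := by
  induction h with
  | pt s a c h =>
    intro q hq
    by_cases he : c a = q
    · have h1 : (num fun a' => a' ∈ ({a} : Set A) ∧ c a' = q) ≤ 1 := by
        unfold num
        rw [Finset.card_le_one]
        intro x hx y hy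
        simp only [Finset.mem_filter, Finset.mem_univ, true_and, Set.mem_singleton_iff] at hx hy
        rw [hx.1, hy.1]
      refine h1.trans ?_
      rw [← he] at hq ⊢
      exact hpt _ _ _ h hq
    · have h1 : (num fun a' => a' ∈ ({a} : Set A) ∧ c a' = q) = 0 := by
        refine Pool.Agent.H8.CH.num_nil ?_
        rintro a' ⟨ha, hb⟩
        rw [Set.mem_singleton_iff.1 ha] at hb
        exact he hb
      rw [h1]
      exact Nat.zero_le _
  | op o X Y c c₁ c₂ h₁ h₂ hd hg ha hX hY ih1 ih2 =>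
    intro q hq
    rw [num_union X Y hd]
    refine le_trans (Nat.add_le_add ?_ ?_) (hop o q hq)
    · exact bnd_arg rg (S.f o) (fun q h => (hfg o q h).1) (B (S.s o)) X c c₁ hX ih1 q hq
    · exact bnd_arg rg (S.g o) (fun q h => (hfg o q h).2) (B (S.t o)) Y c c₂ hY ih2 q hq

theorem bnd2 (S : Sg N Q L T O) (rg : Q → Prop) (B : N → Q → ℕ)
    (hpt : ∀ s q l, S.pt s q l → ¬ rg q → 1 ≤ B s q)
    (hfg : ∀ o q, rg q → S.f o q = q ∧ S.g o q = q)
    (hop : ∀ o q, ¬ rg q → fs (fun q' => ¬ rg q' ∧ S.f o q' = q) (B (S.s o)) +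
      fs (fun q' => ¬ rg q' ∧ S.g o q' = q) (B (S.t o)) ≤ B (S.u o) q)
    {A : Type} [Fintype A] {lam : A → L} {th : A → A → T} {s : N} {X : Set A} {c : A → Q}
    (h : S.Gen lam th s X c) : (num fun a => a ∈ X ∧ ¬ rg (c a)) ≤ ∑ q, B s q := by
  rw [num_fib (fun a => a ∈ X) c (fun q => ¬ rg q)]
  refine (fs_le fun q hq => bnd S rg B hpt hfg hop h q hq).trans ?_
  unfold fs
  exact Finset.sum_le_sum_of_subset (Finset.subset_univ _)

end

theorem evPer_pos {X : Set ℕ} (h : EvPer X) : EvPer {n | 0 < n ∧ n ∈ X} := by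
  obtain ⟨m, p, hp, hX⟩ := h
  refine ⟨m + 1, p, hp, fun n hn => ?_⟩
  have h1 := hX n (by omega)
  constructor
  · rintro ⟨_, h2⟩
    exact ⟨by omega, h1.1 h2⟩
  · rintro ⟨_, h2⟩
    exact ⟨by omega, h1.2 h2⟩

theorem pf_RGn (hN3 : T_N3) (hES : T_ESn) : Pool.Agent.H46.CH.T_RGn := by
  intro N Q _ _ G hG m s₀ φ
  obtain ⟨iQ, rg, B, hp, ho⟩ := hG
  obtain ⟨L, T, C, O, jQ, _, _, _, _, _, S, K, Ok, hpt, hS, hn⟩ := hN3 N Q G m s₀ φ
  have _ : Fintype N := Fintype.ofFinite N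
  have hfg : ∀ o q, rg q → S.f o q = q ∧ S.g o q = q := by
    intro o q hq
    obtain ⟨o', ho', -, -, -, hf, hg, -⟩ := hS o
    rw [hf, hg]
    exact (ho o' ho').1 q hq
  have h1 := hES N Q L T O C S K s₀ Ok rg (∑ s, ∑ q, B s q) hfg ?_ ?_
  · have h2 := evPer_pos h1
    have h3 : specG G m s₀ φ = {n | 0 < n ∧ n ∈ {n | SysMem S K s₀ Ok n}} := by
      ext n
      exact hn n
    rw [h3]
    exact h2
  · intro o x y hx hy
    obtain ⟨o', ho', -, -, -, -, -, hD⟩ := hS o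
    rw [hD]
    exact (ho o' ho').2.2 x y hx hy
  · intro A _ lam th s X c h
    refine (@bnd2 N Q L T O iQ S rg B ?_ hfg ?_ A _ lam th s X c h).trans ?_
    · intro s q l h hq
      obtain ⟨x, hx, rfl, rfl⟩ := hpt s q l h
      exact hp x hx hq
    · intro o q hq
      obtain ⟨o', ho', h1, h2, h3, h4, h5, -⟩ := hS o
      rw [h1, h2, h3, h4, h5]
      exact (ho o' ho').2.1 q hq
    · have e : iQ = jQ := Subsingleton.elim _ _
      subst e
      exact Finset.single_le_sum (f := fun s => ∑ q, B s q) (fun _ _ => Nat.zero_le _)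
        (Finset.mem_univ s)

end Pool.Agent.H43.CHE
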